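import Mathlib

set_option autoImplicit false

/-!
The distribution function of a finite atomless measure maps it to Lebesgue measure.
-/

namespace Pool.Agent.H272R3.HM

open MeasureTheory Set Filter Topology
open scoped ENNReal

variable {μ : Measure ℝ} [IsFiniteMeasure μ]

/-- the distribution function -/
noncomputable def cdfF (μ : Measure ℝ) (x : ℝ) : ℝ := μ.real (Iic x)

theorem cdfF_mono : Monotone (cdfF μ) := fun _ _ h =>
  measureReal_mono (Iic_subset_Iic.mpr h)

omit [IsFiniteMeasure μ] in
theorem cdfF_nonneg (x : ℝ) : 0 ≤ cdfF μ x := measureReal_nonneg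

theorem cdfF_le (x : ℝ) : cdfF μ x ≤ μ.real univ := measureReal_mono (subset_univ _)

theorem ofReal_cdfF (x : ℝ) : ENNReal.ofReal (cdfF μ x) = μ (Iic x) := by
  unfold cdfF
  rw [ofReal_measureReal]

theorem cdfF_continuous (h0 : ∀ x, μ {x} = 0) : Continuous (cdfF μ) := by
  have hna : NullSingletonClass μ := ⟨h0⟩
  have h1 : Continuous fun b : ℝ => ∫ _ in (0 : ℝ)..b, (1 : ℝ) ∂μ :=
    intervalIntegral.continuous_primitive (fun a b => intervalIntegrable_const) 0
  have hu : ∀ a b : ℝ, a ≤ b → μ.real (Iic b) = μ.real (Iic a) + μ.real (Ioc a b) := by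
    intro a b hab
    rw [← Iic_union_Ioc_eq_Iic hab, measureReal_union (Iic_disjoint_Ioc le_rfl) measurableSet_Ioc]
  have h2 : cdfF μ = fun b => cdfF μ 0 + ∫ _ in (0 : ℝ)..b, (1 : ℝ) ∂μ := by
    funext b
    rw [intervalIntegral.integral_const', smul_eq_mul, mul_one]
    unfold cdfF
    rcases le_total 0 b with hb | hb
    · rw [Ioc_eq_empty (not_lt.mpr hb), measureReal_empty, sub_zero, hu 0 b hb]
    · rw [Ioc_eq_empty (not_lt.mpr hb), measureReal_empty, zero_sub, hu b 0 hb]
      ring
  rw [h2]
  exact continuous_const.add h1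

theorem tendsto_top : Tendsto (cdfF μ) atTop (𝓝 (μ.real univ)) := by
  have h1 : Tendsto (fun x : ℝ => μ (Iic x)) atTop (𝓝 (μ univ)) := tendsto_measure_Iic_atTop μ
  exact (ENNReal.tendsto_toReal (measure_ne_top μ univ)).comp h1

theorem tendsto_bot : Tendsto (cdfF μ) atBot (𝓝 0) := by
  have h1 : Tendsto (fun x : ℝ => μ (Iic x)) atBot (𝓝 0) := by
    have h2 := tendsto_measure_iInter_atBot (μ := μ) (s := fun x : ℝ => Iic x)
      (fun x => measurableSet_Iic.nullMeasurableSet) (fun a b h => Iic_subset_Iic.mpr h)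
      ⟨0, measure_ne_top μ _⟩
    have h3 : (⋂ x : ℝ, Iic x) = ∅ := by
      ext y
      simp only [mem_iInter, mem_Iic, mem_empty_iff_false, iff_false, not_forall, not_le]
      exact ⟨y - 1, by linarith⟩
    rw [h3, measure_empty] at h2
    exact h2
  exact (ENNReal.tendsto_toReal ENNReal.zero_ne_top).comp h1

theorem measure_le_of_lt (h0 : ∀ x, μ {x} = 0) {a : ℝ} (ha : 0 ≤ a) (ham : a < μ.real univ) :
    μ {x | cdfF μ x ≤ a} = ENNReal.ofReal a := by
  have hcont := cdfF_continuous h0
  have hbdd : BddAbove {x | cdfF μ x ≤ a} := by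
    obtain ⟨b, hb⟩ := ((tendsto_top (μ := μ)).eventually (lt_mem_nhds ham)).exists
    refine ⟨b, fun x hx => ?_⟩
    by_contra hlt
    have := cdfF_mono (μ := μ) (not_le.mp hlt).le
    exact absurd (lt_of_lt_of_le hb this) (not_lt.mpr hx)
  apply le_antisymm
  · rcases ({x | cdfF μ x ≤ a}).eq_empty_or_nonempty with he | hne
    · rw [he, measure_empty]
      exact zero_le
    · have hcl : IsClosed {x | cdfF μ x ≤ a} := isClosed_le hcont continuous_const
      have hs := hcl.csSup_mem hne hbdd
      have hsub : {x | cdfF μ x ≤ a} ⊆ Iic (sSup {x | cdfF μ x ≤ a}) := fun x hx =>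
        le_csSup hbdd hx
      refine (measure_mono hsub).trans ?_
      rw [← ofReal_cdfF]
      exact ENNReal.ofReal_le_ofReal hs
  · rcases ha.lt_or_eq with hlt | heq
    · obtain ⟨b, hb⟩ := ((tendsto_top (μ := μ)).eventually (lt_mem_nhds ham)).exists
      obtain ⟨c, hc⟩ := ((tendsto_bot (μ := μ)).eventually (gt_mem_nhds hlt)).exists
      obtain ⟨s, hs⟩ := mem_range_of_exists_le_of_exists_ge hcont ⟨c, hc.le⟩ ⟨b, hb.le⟩
      rw [← hs, ofReal_cdfF]
      exact measure_mono fun x hx => cdfF_mono hx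
    · rw [← heq, ENNReal.ofReal_zero]
      exact zero_le

theorem map_cdfF (h0 : ∀ x, μ {x} = 0) :
    Measure.map (cdfF μ) μ = volume.restrict (Icc 0 (μ.real univ)) := by
  have hcont := cdfF_continuous h0
  have hm : Measurable (cdfF μ) := hcont.measurable
  have : IsFiniteMeasure (Measure.map (cdfF μ) μ) := Measure.isFiniteMeasure_map μ _
  refine Measure.ext_of_Iic _ _ fun a => ?_
  rw [Measure.map_apply hm measurableSet_Iic, Measure.restrict_apply measurableSet_Iic]
  change μ {x | cdfF μ x ≤ a} = _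
  rcases lt_or_ge a 0 with ha | ha
  · have e1 : {x | cdfF μ x ≤ a} = ∅ := by
      ext x
      simp only [mem_ofPred_eq, mem_empty_iff_false, iff_false, not_le]
      exact lt_of_lt_of_le ha (cdfF_nonneg x)
    have e2 : Iic a ∩ Icc 0 (μ.real univ) = ∅ := by
      ext x
      simp only [mem_inter_iff, mem_Iic, mem_Icc, mem_empty_iff_false, iff_false]
      rintro ⟨h1, h2, _⟩
      linarith
    rw [e1, e2, measure_empty, measure_empty]
  · rcases lt_or_ge a (μ.real univ) with ham | ham
    · rw [measure_le_of_lt h0 ha ham]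
      have e2 : Iic a ∩ Icc 0 (μ.real univ) = Icc 0 a := by
        ext x
        simp only [mem_inter_iff, mem_Iic, mem_Icc]
        constructor
        · rintro ⟨h1, h2, _⟩; exact ⟨h2, h1⟩
        · rintro ⟨h1, h2⟩; exact ⟨h2, h1, by linarith⟩
      rw [e2, Real.volume_Icc, sub_zero]
    · have e1 : {x | cdfF μ x ≤ a} = univ := by
        ext x
        simp only [mem_ofPred_eq, mem_univ, iff_true]
        exact (cdfF_le x).trans ham
      have e2 : Iic a ∩ Icc 0 (μ.real univ) = Icc 0 (μ.real univ) := by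
        ext x
        simp only [mem_inter_iff, mem_Iic, mem_Icc]
        constructor
        · rintro ⟨_, h⟩; exact h
        · rintro ⟨h1, h2⟩; exact ⟨by linarith, h1, h2⟩
      rw [e1, e2, Real.volume_Icc, sub_zero, ofReal_measureReal]

/-- a set whose image under the distribution function is Lebesgue null is null -/
theorem null_of_image (h0 : ∀ x, μ {x} = 0) {B : Set ℝ} (hB : volume (cdfF μ '' B) = 0) :
    μ B = 0 := by
  have hm : Measurable (cdfF μ) := (cdfF_continuous h0).measurable
  obtain ⟨N, h1, h2, h3⟩ := exists_measurable_superset_of_null hB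
  have h4 : Measure.map (cdfF μ) μ N = 0 := by
    rw [map_cdfF h0]
    exact le_antisymm (le_trans (Measure.restrict_apply_le _ _) h3.le) zero_le
  rw [Measure.map_apply hm h2] at h4
  have h5 : B ⊆ cdfF μ ⁻¹' N := fun x hx => h1 (mem_image_of_mem _ hx)
  exact measure_mono_null h5 h4

end Pool.Agent.H272R3.HM
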