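import Mathlib

set_option autoImplicit false

/-!
Coding Lebesgue null sets by points of the Cantor space.
-/

namespace Pool.Agent.H272R3.HM

open MeasureTheory Set TopologicalSpace
open scoped ENNReal

theorem exists_basis : ∃ I : ℕ → Set ℝ, (∀ m, IsOpen (I m)) ∧
    ∀ U : Set ℝ, IsOpen U → ∀ x ∈ U, ∃ m, x ∈ I m ∧ I m ⊆ U := by
  obtain ⟨B, hBc, _, hB⟩ := exists_countable_basis ℝ
  have hne : B.Nonempty := by
    obtain ⟨t, ht, _⟩ := hB.exists_subset_of_mem_open (mem_univ (0 : ℝ)) isOpen_univ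
    exact ⟨t, ht⟩
  obtain ⟨I, hI⟩ := hBc.exists_eq_range hne
  refine ⟨I, fun m => hB.isOpen (hI ▸ mem_range_self m), fun U hU x hx => ?_⟩
  obtain ⟨t, ht, hxt, htU⟩ := hB.exists_subset_of_mem_open hx hU
  rw [hI] at ht
  obtain ⟨m, rfl⟩ := ht
  exact ⟨m, hxt, htU⟩

/-- an enumeration of a basis of the line -/
noncomputable def I : ℕ → Set ℝ := exists_basis.choose

theorem isOpen_I (m : ℕ) : IsOpen (I m) := exists_basis.choose_spec.1 m

theorem exists_I {U : Set ℝ} (hU : IsOpen U) {x : ℝ} (hx : x ∈ U) : ∃ m, x ∈ I m ∧ I m ⊆ U :=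
  exists_basis.choose_spec.2 U hU x hx

/-- the `n`-th open set coded by `v` -/
def Un (v : ℕ → Bool) (n : ℕ) : Set ℝ := {x | ∃ m, v (Nat.pair n m) = true ∧ x ∈ I m}

/-- the null set coded by `v` -/
def Nl (v : ℕ → Bool) : Set ℝ := {x | ∀ n, volume (Un v n) ≤ (1 / 2) ^ n ∧ x ∈ Un v n}

theorem volume_Nl (v : ℕ → Bool) : volume (Nl v) = 0 := by
  rcases (Nl v).eq_empty_or_nonempty with h | ⟨x0, hx0⟩
  · rw [h, measure_empty]
  · have h1 : ∀ n, volume (Nl v) ≤ (1 / 2) ^ n := fun n =>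
      (measure_mono fun x hx => (hx n).2).trans (hx0 n).1
    have h2 : Filter.Tendsto (fun n : ℕ => ((1 / 2 : ℝ≥0∞)) ^ n) Filter.atTop (nhds 0) :=
      ENNReal.tendsto_pow_atTop_nhds_zero_of_lt_one (by
        rw [one_div]; exact ENNReal.one_half_lt_one)
    exact le_antisymm (ge_of_tendsto' h2 h1) zero_le

theorem exists_code {X : Set ℝ} (hX : volume X = 0) : ∃ v, X ⊆ Nl v := by
  classical
  have h1 : ∀ n : ℕ, ∃ U, X ⊆ U ∧ IsOpen U ∧ volume U < (1 / 2) ^ n := by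
    intro n
    obtain ⟨U, hU1, hU2, hU3⟩ := X.exists_isOpen_lt_of_lt (μ := volume) ((1 / 2) ^ n) (by
      rw [hX]
      exact ENNReal.pow_pos (by simp) n)
    exact ⟨U, hU1, hU2, hU3⟩
  choose U hU1 hU2 hU3 using h1
  let v : ℕ → Bool := fun i => decide (I i.unpair.2 ⊆ U i.unpair.1)
  have h2 : ∀ n, Un v n = U n := by
    intro n
    ext x
    constructor
    · rintro ⟨m, hm, hx⟩
      simp only [v, Nat.unpair_pair, decide_eq_true_eq] at hm
      exact hm hx
    · intro hx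
      obtain ⟨m, hm1, hm2⟩ := exists_I (hU2 n) hx
      exact ⟨m, by simpa [v] using hm2, hm1⟩
  refine ⟨v, fun x hx n => ?_⟩
  rw [h2]
  exact ⟨(hU3 n).le, hU1 n hx⟩

theorem measurableSet_code : MeasurableSet {q : (ℕ → Bool) × ℝ | q.2 ∈ Nl q.1} := by
  have hU : ∀ n, MeasurableSet {q : (ℕ → Bool) × ℝ | q.2 ∈ Un q.1 n} := by
    intro n
    have e : {q : (ℕ → Bool) × ℝ | q.2 ∈ Un q.1 n} =
        ⋃ m, ({q : (ℕ → Bool) × ℝ | q.1 (Nat.pair n m) = true} ∩ {q | q.2 ∈ I m}) := by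
      ext q
      simp only [Un, mem_ofPred_eq, mem_iUnion, mem_inter_iff]
    rw [e]
    refine MeasurableSet.iUnion fun m => MeasurableSet.inter ?_ ?_
    · have h1 : Measurable fun q : (ℕ → Bool) × ℝ => q.1 (Nat.pair n m) :=
        (measurable_pi_apply _).comp measurable_fst
      exact h1 (measurableSet_singleton true)
    · exact measurable_snd (isOpen_I m).measurableSet
  have hV : ∀ n, MeasurableSet {q : (ℕ → Bool) × ℝ | volume (Un q.1 n) ≤ (1 / 2) ^ n} := by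
    intro n
    have h1 : Measurable fun v : ℕ → Bool => volume (Prod.mk v ⁻¹' {q | q.2 ∈ Un q.1 n}) :=
      measurable_measure_prodMk_left (hU n)
    exact measurableSet_le (h1.comp measurable_fst) measurable_const
  have e : {q : (ℕ → Bool) × ℝ | q.2 ∈ Nl q.1} =
      ⋂ n, ({q : (ℕ → Bool) × ℝ | volume (Un q.1 n) ≤ (1 / 2) ^ n} ∩ {q | q.2 ∈ Un q.1 n}) := by
    ext q
    simp only [Nl, mem_ofPred_eq, mem_iInter, mem_inter_iff]
  rw [e]
  exact MeasurableSet.iInter fun n => (hV n).inter (hU n)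

end Pool.Agent.H272R3.HM
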