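import Mathlib

set_option autoImplicit false

/-!
Hausdorff measures on the real line and universally null sets.
-/

namespace Pool.Agent.H272R3.HM

open MeasureTheory Set
open scoped ENNReal

/-- A gauge function (only its values on `[0,∞)` matter): nondecreasing, right-continuous,
vanishing at `0` and positive on `(0,∞)`. -/
structure Gauge (f : ℝ → ℝ) : Prop where
  mono : ∀ s t, 0 ≤ s → s ≤ t → f s ≤ f t
  rcont : ∀ t, 0 ≤ t → ContinuousWithinAt f (Ici t) t
  zero : f 0 = 0
  pos : ∀ t, 0 < t → 0 < f t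

/-- `H^f_δ(A)`: the infimum of `∑ f(diam U_i)` over the countable covers of `A` by sets of
diameter at most `δ`. -/
noncomputable def Hd (f : ℝ → ℝ) (δ : ℝ) (A : Set ℝ) : ℝ≥0∞ :=
  ⨅ (U : ℕ → Set ℝ) (_ : A ⊆ ⋃ i, U i)
    (_ : ∀ i, Bornology.IsBounded (U i) ∧ Metric.diam (U i) ≤ δ),
    ∑' i, ENNReal.ofReal (f (Metric.diam (U i)))

/-- `H^f(A)`: the limit of `H^f_δ(A)` as `δ → 0+`, which is the supremum over all `δ > 0` since
`H^f_δ(A)` increases when `δ` decreases. -/
noncomputable def H (f : ℝ → ℝ) (A : Set ℝ) : ℝ≥0∞ := ⨆ (δ : ℝ) (_ : 0 < δ), Hd f δ A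

/-- `A` is universally null: null for every finite Borel measure without atoms. -/
def UnivNull (A : Set ℝ) : Prop :=
  ∀ μ : Measure ℝ, IsFiniteMeasure μ → (∀ x, μ {x} = 0) → μ A = 0

variable {f : ℝ → ℝ}

/-- the corresponding Borel measure of Mathlib -/
noncomputable def Hm (f : ℝ → ℝ) : Measure ℝ :=
  Measure.mkMetric (fun t : ℝ≥0∞ => ENNReal.ofReal (f t.toReal))

theorem H_eq (hf : Gauge f) (A : Set ℝ) : H f A = Hm f A := by
  unfold H Hm
  rw [Measure.mkMetric_apply]
  apply le_antisymm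
  · refine iSup₂_le fun δ hδ => ?_
    refine le_iSup₂_of_le (ENNReal.ofReal δ) (ENNReal.ofReal_pos.mpr hδ) ?_
    refine le_iInf fun t => le_iInf fun ht => le_iInf fun hd => ?_
    refine iInf_le_of_le t (iInf_le_of_le ht (iInf_le_of_le ?_ ?_))
    · intro i
      refine ⟨?_, ?_⟩
      · rw [Metric.isBounded_iff_ediam_ne_top]
        exact ne_top_of_le_ne_top ENNReal.ofReal_ne_top (hd i)
      · exact ENNReal.toReal_le_of_le_ofReal hδ.le (hd i)
    · refine ENNReal.tsum_le_tsum fun i => ?_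
      rcases (t i).eq_empty_or_nonempty with h | h
      · rw [h, Metric.diam_empty, hf.zero, ENNReal.ofReal_zero]
        exact zero_le
      · exact le_iSup_of_le h le_rfl
  · refine iSup₂_le fun r hr => ?_
    obtain ⟨δ, hδ, hδr⟩ : ∃ δ : ℝ, 0 < δ ∧ ENNReal.ofReal δ ≤ r := by
      rcases eq_or_ne r ∞ with rfl | h
      · exact ⟨1, one_pos, le_top⟩
      · exact ⟨r.toReal, ENNReal.toReal_pos hr.ne' h, ENNReal.ofReal_toReal_le⟩
    refine le_iSup₂_of_le δ hδ ?_
    refine le_iInf fun t => le_iInf fun ht => le_iInf fun hd => ?_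
    refine iInf_le_of_le t (iInf_le_of_le ht (iInf_le_of_le (fun i => ?_) ?_))
    · refine le_trans ?_ hδr
      have h1 := (hd i).1
      rw [Metric.isBounded_iff_ediam_ne_top] at h1
      rw [← ENNReal.ofReal_toReal h1]
      exact ENNReal.ofReal_le_ofReal (hd i).2
    · refine ENNReal.tsum_le_tsum fun i => ?_
      exact iSup_le fun _ => le_rfl

theorem H_singleton (hf : Gauge f) (x : ℝ) : H f {x} = 0 := by
  unfold H
  refine le_antisymm (iSup₂_le fun δ hδ => ?_) zero_le
  refine iInf_le_of_le (fun _ => {x}) (iInf_le_of_le ?_ (iInf_le_of_le ?_ ?_))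
  · exact subset_iUnion (fun _ : ℕ => ({x} : Set ℝ)) 0
  · exact fun _ => ⟨Bornology.isBounded_singleton, by rw [Metric.diam_singleton]; exact hδ.le⟩
  · simp [Metric.diam_singleton, hf.zero]

theorem H_mono {A B : Set ℝ} (h : A ⊆ B) : H f A ≤ H f B := by
  unfold H Hd
  refine iSup₂_mono fun δ hδ => ?_
  refine iInf_mono fun U => ?_
  exact le_iInf fun hU => iInf_le_of_le (h.trans hU) le_rfl

/-- a universally null set has no subset of positive finite measure -/
theorem zero_or_top (hf : Gauge f) {A A0 : Set ℝ} (hA : UnivNull A) (h0 : A0 ⊆ A) :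
    H f A0 = 0 ∨ H f A0 = ∞ := by
  by_cases hfin : H f A0 = ∞
  · exact Or.inr hfin
  left
  rw [H_eq hf] at hfin ⊢
  have hG : MeasurableSet (toMeasurable (Hm f) A0) := measurableSet_toMeasurable _ _
  have h1 : IsFiniteMeasure ((Hm f).restrict (toMeasurable (Hm f) A0)) := by
    refine ⟨?_⟩
    rw [Measure.restrict_apply MeasurableSet.univ, univ_inter, measure_toMeasurable]
    exact lt_top_iff_ne_top.mpr hfin
  have h2 : ∀ x, ((Hm f).restrict (toMeasurable (Hm f) A0)) {x} = 0 := by
    intro x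
    have h3 : Hm f {x} = 0 := by rw [← H_eq hf]; exact H_singleton hf x
    exact le_antisymm (le_trans (Measure.restrict_apply_le _ _) h3.le) zero_le
  have h3 := hA _ h1 h2
  have h4 := measure_mono_null h0 h3
  rw [Measure.restrict_apply' hG, inter_eq_left.mpr (subset_toMeasurable _ _)] at h4
  exact h4

/-! ### Gauges for which the line is `σ`-finite -/

theorem H_Icc_lt_top (hf : Gauge f) {c : ℝ} (hc : ∀ δ, 0 < δ → ∃ t, 0 < t ∧ t < δ ∧ f t ≤ c * t)
    (a : ℝ) : H f (Icc a (a + 1)) < ∞ := by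
  have hc0 : 0 ≤ c := by
    obtain ⟨t, h1, _, h2⟩ := hc 1 one_pos
    have := hf.pos t h1
    by_contra hneg
    nlinarith
  refine lt_of_le_of_lt ?_ (ENNReal.ofReal_lt_top (r := 2 * c))
  refine iSup₂_le fun δ hδ => ?_
  obtain ⟨t, ht0, htδ, hft⟩ := hc (min δ 1) (lt_min hδ one_pos)
  let N := ⌈1 / t⌉₊
  have hN1 : 1 / t ≤ N := Nat.le_ceil _
  have hN2 : (N : ℝ) < 1 / t + 1 := Nat.ceil_lt_add_one (by positivity)
  let U : ℕ → Set ℝ := fun i => if i < N then Icc (a + i * t) (a + (i + 1) * t) else ∅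
  have hdiam : ∀ i < N, Metric.diam (U i) = t := by
    intro i hi
    simp only [U, if_pos hi]
    rw [Real.diam_Icc (by nlinarith)]
    ring
  have hdiam' : ∀ i, ¬ i < N → Metric.diam (U i) = 0 := by
    intro i hi
    simp only [U, if_neg hi]
    exact Metric.diam_empty
  refine iInf_le_of_le U (iInf_le_of_le ?_ (iInf_le_of_le ?_ ?_))
  · intro x hx
    have hx1 : 0 ≤ (x - a) / t := div_nonneg (by linarith [hx.1]) ht0.le
    rcases eq_or_ne x (a + N * t) with hxe | hxe
    · have hNpos : 0 < N := by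
        have : (0 : ℝ) < N := lt_of_lt_of_le (by positivity) hN1
        exact_mod_cast this
      refine mem_iUnion.mpr ⟨N - 1, ?_⟩
      have h1 : N - 1 < N := by omega
      simp only [U, if_pos h1]
      have h2 : ((N - 1 : ℕ) : ℝ) = N - 1 := by
        rw [Nat.cast_sub hNpos]; simp
      rw [h2, hxe]
      constructor <;> nlinarith
    · have hlt : x < a + N * t := by
        refine lt_of_le_of_ne ?_ hxe
        have h1 : 1 ≤ N * t := by
          rw [div_le_iff₀ ht0] at hN1
          exact hN1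
        linarith [hx.2]
      let i := ⌊(x - a) / t⌋₊
      have hi1 : (i : ℝ) ≤ (x - a) / t := Nat.floor_le hx1
      have hi2 : (x - a) / t < i + 1 := Nat.lt_floor_add_one _
      rw [le_div_iff₀ ht0] at hi1
      rw [div_lt_iff₀ ht0] at hi2
      have hiN : i < N := by
        have h3 : (i : ℝ) * t < N * t := by linarith
        have h4 : (i : ℝ) < N := lt_of_mul_lt_mul_right h3 ht0.le
        exact_mod_cast h4
      refine mem_iUnion.mpr ⟨i, ?_⟩
      simp only [U, if_pos hiN]
      constructor <;> linarith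
  · intro i
    by_cases hi : i < N
    · refine ⟨?_, ?_⟩
      · simp only [U, if_pos hi]
        exact Metric.isBounded_Icc _ _
      · rw [hdiam i hi]
        exact htδ.le.trans (min_le_left _ _)
    · refine ⟨?_, ?_⟩
      · simp only [U, if_neg hi]
        exact Bornology.isBounded_empty
      · rw [hdiam' i hi]
        exact hδ.le
  · rw [tsum_eq_sum (s := Finset.range N)]
    · have e : ∀ i ∈ Finset.range N, ENNReal.ofReal (f (Metric.diam (U i))) =
          ENNReal.ofReal (f t) := by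
        intro i hi
        rw [hdiam i (Finset.mem_range.mp hi)]
      rw [Finset.sum_congr rfl e, Finset.sum_const, Finset.card_range, nsmul_eq_mul,
        ← ENNReal.ofReal_natCast, ← ENNReal.ofReal_mul (by positivity)]
      apply ENNReal.ofReal_le_ofReal
      have h1 : (N : ℝ) * f t ≤ N * (c * t) := mul_le_mul_of_nonneg_left hft (by positivity)
      have h2 : (N : ℝ) * t ≤ 1 + t := by
        have : (N : ℝ) * t ≤ (1 / t + 1) * t := mul_le_mul_of_nonneg_right hN2.le ht0.le
        rw [add_mul, one_div, inv_mul_cancel₀ ht0.ne', one_mul] at this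
        exact this
      have h3 : t ≤ 1 := htδ.le.trans (min_le_right _ _)
      nlinarith
    · intro i hi
      rw [hdiam' i (by simpa using hi), hf.zero, ENNReal.ofReal_zero]

theorem exists_subset_of_frequently (hf : Gauge f) {c : ℝ}
    (hc : ∀ δ, 0 < δ → ∃ t, 0 < t ∧ t < δ ∧ f t ≤ c * t) {A : Set ℝ} (hA : 0 < H f A) :
    ∃ A0 ⊆ A, 0 < H f A0 ∧ H f A0 < ∞ := by
  by_contra hne
  push Not at hne
  have h0 : ∀ z : ℤ, H f (A ∩ Icc (z : ℝ) (z + 1)) = 0 := by
    intro z
    by_contra hz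
    have h1 := hne (A ∩ Icc (z : ℝ) (z + 1)) inter_subset_left (pos_iff_ne_zero.mpr hz)
    have h2 : H f (A ∩ Icc (z : ℝ) (z + 1)) < ∞ :=
      lt_of_le_of_lt (H_mono inter_subset_right) (H_Icc_lt_top hf hc z)
    exact absurd h1 (not_le.mpr h2)
  have h1 : Hm f (⋃ z : ℤ, A ∩ Icc (z : ℝ) (z + 1)) = 0 := by
    refine measure_iUnion_null fun z => ?_
    rw [← H_eq hf]
    exact h0 z
  have h2 : A ⊆ ⋃ z : ℤ, A ∩ Icc (z : ℝ) (z + 1) := by
    intro x hx
    exact mem_iUnion.mpr ⟨⌊x⌋, hx, Int.floor_le x, (Int.lt_floor_add_one x).le⟩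
  have h3 := measure_mono_null h2 h1
  rw [← H_eq hf] at h3
  exact hA.ne' h3

end Pool.Agent.H272R3.HM
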