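import Mathlib

set_option autoImplicit false

/-!
Binary digits and interleaving.
-/

namespace Pool.Agent.H272R3.HM

open MeasureTheory Set
open scoped ENNReal

/-- the integer with the first `n` digits of `z` -/
def S (z : ℕ → Bool) : ℕ → ℕ
  | 0 => 0
  | n + 1 => 2 * S z n + (z n).toNat

theorem toNat_le (b : Bool) : b.toNat ≤ 1 := by cases b <;> simp

theorem S_inj {z z' : ℕ → Bool} : ∀ {n : ℕ}, S z n = S z' n → ∀ i < n, z i = z' i
  | 0, _, i, hi => absurd hi (Nat.not_lt_zero i)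
  | n + 1, h, i, hi => by
    simp only [S] at h
    have h1 := toNat_le (z n)
    have h2 := toNat_le (z' n)
    have h3 : S z n = S z' n := by omega
    have h4 : (z n).toNat = (z' n).toNat := by omega
    rcases Nat.lt_succ_iff_lt_or_eq.mp hi with hi | rfl
    · exact S_inj h3 i hi
    · revert h4
      cases z i <;> cases z' i <;> simp

theorem S_congr {z z' : ℕ → Bool} : ∀ {n : ℕ}, (∀ i < n, z i = z' i) → S z n = S z' n
  | 0, _ => rfl
  | n + 1, h => by
    simp only [S]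
    rw [S_congr fun i hi => h i (Nat.lt_succ_of_lt hi), h n (Nat.lt_succ_self n)]

/-- the real with binary digits `z` -/
noncomputable def val (z : ℕ → Bool) : ℝ := ⨆ n, (S z n : ℝ) / 2 ^ n

theorem lo_mono (z : ℕ → Bool) : Monotone fun n => (S z n : ℝ) / 2 ^ n := by
  refine monotone_nat_of_le_succ fun n => ?_
  rw [div_le_div_iff₀ (by positivity) (by positivity)]
  simp only [S]
  push_cast
  have h1 : (0 : ℝ) ≤ ((z n).toNat : ℝ) := by positivity
  have h2 : (0 : ℝ) < 2 ^ n := by positivity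
  rw [pow_succ]
  nlinarith

theorem hi_anti (z : ℕ → Bool) : Antitone fun n => ((S z n : ℝ) + 1) / 2 ^ n := by
  refine antitone_nat_of_succ_le fun n => ?_
  rw [div_le_div_iff₀ (by positivity) (by positivity)]
  simp only [S]
  push_cast
  have h1 : ((z n).toNat : ℝ) ≤ 1 := by exact_mod_cast toNat_le (z n)
  have h2 : (0 : ℝ) < 2 ^ n := by positivity
  rw [pow_succ]
  nlinarith

theorem lo_le_hi (z : ℕ → Bool) (n m : ℕ) : (S z n : ℝ) / 2 ^ n ≤ ((S z m : ℝ) + 1) / 2 ^ m := by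
  have h1 : (S z (max n m) : ℝ) / 2 ^ (max n m) ≤ ((S z (max n m) : ℝ) + 1) / 2 ^ (max n m) := by
    apply div_le_div_of_nonneg_right _ (by positivity)
    linarith
  exact (lo_mono z (le_max_left n m)).trans (h1.trans (hi_anti z (le_max_right n m)))

theorem lo_le_val (z : ℕ → Bool) (n : ℕ) : (S z n : ℝ) / 2 ^ n ≤ val z :=
  le_ciSup (f := fun n => (S z n : ℝ) / 2 ^ n) ⟨_, by rintro _ ⟨k, rfl⟩; exact lo_le_hi z k 0⟩ n

theorem val_le_hi (z : ℕ → Bool) (n : ℕ) : val z ≤ ((S z n : ℝ) + 1) / 2 ^ n :=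
  ciSup_le fun k => lo_le_hi z k n

theorem val_lt_hi {z : ℕ → Bool} {n i : ℕ} (hi : n ≤ i) (hz : z i = false) :
    val z < ((S z n : ℝ) + 1) / 2 ^ n := by
  have h1 := val_le_hi z (i + 1)
  have h2 : ((S z (i + 1) : ℝ) + 1) / 2 ^ (i + 1) < ((S z i : ℝ) + 1) / 2 ^ i := by
    rw [div_lt_div_iff₀ (by positivity) (by positivity)]
    simp only [S, hz, Bool.toNat_false]
    push_cast
    have h2 : (0 : ℝ) < 2 ^ i := by positivity
    rw [pow_succ]
    nlinarith
  exact lt_of_lt_of_le (lt_of_le_of_lt h1 h2) (hi_anti z hi)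

/-- not eventually `true` -/
def NE (z : ℕ → Bool) : Prop := ∀ n, ∃ i, n ≤ i ∧ z i = false

theorem floor_val {z : ℕ → Bool} (hz : NE z) (n : ℕ) : ⌊(2 : ℝ) ^ n * val z⌋ = (S z n : ℤ) := by
  obtain ⟨i, hi, hzi⟩ := hz n
  have h1 := lo_le_val z n
  have h2 := val_lt_hi hi hzi
  have h3 : (0 : ℝ) < 2 ^ n := by positivity
  rw [div_le_iff₀ h3] at h1
  rw [lt_div_iff₀ h3] at h2
  rw [Int.floor_eq_iff]
  push_cast
  constructor <;> linarith

/-- the binary digits of a real -/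
noncomputable def dig (a : ℝ) (i : ℕ) : Bool := decide (⌊(2 : ℝ) ^ (i + 1) * a⌋ % 2 = 1)

theorem dig_val {z : ℕ → Bool} (hz : NE z) : dig (val z) = z := by
  funext i
  unfold dig
  rw [floor_val hz (i + 1)]
  have hS : S z (i + 1) = 2 * S z i + (z i).toNat := rfl
  rcases Bool.eq_false_or_eq_true (z i) with h | h
  · have h2 : (S z (i + 1) : ℤ) % 2 = 1 := by
      rw [hS, h, Bool.toNat_true]
      omega
    rw [h]
    exact decide_eq_true h2
  · have h2 : ¬ (S z (i + 1) : ℤ) % 2 = 1 := by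
      rw [hS, h, Bool.toNat_false]
      omega
    rw [h]
    exact decide_eq_false h2

theorem floor_step (a : ℝ) (n : ℕ) :
    ⌊(2 : ℝ) ^ (n + 1) * a⌋ = 2 * ⌊(2 : ℝ) ^ n * a⌋ + ((dig a n).toNat : ℤ) := by
  have h1 := Int.floor_le ((2 : ℝ) ^ n * a)
  have h2 := Int.lt_floor_add_one ((2 : ℝ) ^ n * a)
  have h3 := Int.floor_le ((2 : ℝ) ^ (n + 1) * a)
  have h4 := Int.lt_floor_add_one ((2 : ℝ) ^ (n + 1) * a)
  have e : (2 : ℝ) ^ (n + 1) * a = 2 * ((2 : ℝ) ^ n * a) := by rw [pow_succ]; ring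
  have h5 : 2 * ⌊(2 : ℝ) ^ n * a⌋ ≤ ⌊(2 : ℝ) ^ (n + 1) * a⌋ := by
    rw [Int.le_floor]
    push_cast
    linarith
  have h6 : ⌊(2 : ℝ) ^ (n + 1) * a⌋ < 2 * ⌊(2 : ℝ) ^ n * a⌋ + 2 := by
    rw [Int.floor_lt]
    push_cast
    linarith
  unfold dig
  by_cases h : ⌊(2 : ℝ) ^ (n + 1) * a⌋ % 2 = 1
  · rw [decide_eq_true h]
    simp only [Bool.toNat_true]
    push_cast
    omega
  · rw [decide_eq_false h]
    simp only [Bool.toNat_false]
    push_cast
    omega

theorem S_dig {x : ℝ} (h0 : 0 ≤ x) (h1 : x < 1) (n : ℕ) : (S (dig x) n : ℤ) = ⌊(2 : ℝ) ^ n * x⌋ := by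
  induction n with
  | zero =>
    symm
    rw [pow_zero, one_mul, Int.floor_eq_iff]
    simp only [S]
    push_cast
    constructor <;> linarith
  | succ n ih =>
    rw [floor_step, ← ih]
    simp only [S]
    push_cast
    ring

theorem S_dig_le {x : ℝ} (h0 : 0 ≤ x) (h1 : x < 1) (n : ℕ) : (S (dig x) n : ℝ) ≤ 2 ^ n * x := by
  have h := S_dig h0 h1 n
  have h2 := Int.floor_le ((2 : ℝ) ^ n * x)
  rw [← h] at h2
  exact_mod_cast h2

theorem lt_S_dig {x : ℝ} (h0 : 0 ≤ x) (h1 : x < 1) (n : ℕ) :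
    2 ^ n * x < (S (dig x) n : ℝ) + 1 := by
  have h := S_dig h0 h1 n
  have h2 := Int.lt_floor_add_one ((2 : ℝ) ^ n * x)
  rw [← h] at h2
  exact_mod_cast h2

theorem NE_dig {x : ℝ} (h0 : 0 ≤ x) (h1 : x < 1) : NE (dig x) := by
  intro n
  by_contra hne
  push Not at hne
  have hall : ∀ k, (S (dig x) (n + k) : ℝ) + 1 = 2 ^ k * ((S (dig x) n : ℝ) + 1) := by
    intro k
    induction k with
    | zero => simp
    | succ k ih =>
      have h2 : dig x (n + k) = true := by
        have := hne (n + k) (by omega)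
        simpa using this
      have h3 : S (dig x) (n + (k + 1)) = 2 * S (dig x) (n + k) + (dig x (n + k)).toNat := rfl
      rw [h3, h2, Bool.toNat_true]
      push_cast
      rw [pow_succ]
      linarith
  have h2 := lt_S_dig h0 h1 n
  obtain ⟨k, hk⟩ := exists_nat_gt (1 / ((S (dig x) n : ℝ) + 1 - 2 ^ n * x))
  have h3 : (k : ℝ) < 2 ^ k := by exact_mod_cast Nat.lt_two_pow_self
  have h4 := S_dig_le h0 h1 (n + k)
  have h5 := hall k
  have h6 : 1 < (2 : ℝ) ^ k * ((S (dig x) n : ℝ) + 1 - 2 ^ n * x) := by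
    have h7 : 0 < (S (dig x) n : ℝ) + 1 - 2 ^ n * x := by linarith
    rw [div_lt_iff₀ h7] at hk
    nlinarith
  rw [pow_add] at h4
  nlinarith

theorem measurable_dig (i : ℕ) : Measurable fun a : ℝ => dig a i := by
  unfold dig
  refine measurable_to_bool ?_
  have e : (fun a : ℝ => decide (⌊(2 : ℝ) ^ (i + 1) * a⌋ % 2 = 1)) ⁻¹' {true} =
      (fun a : ℝ => ⌊(2 : ℝ) ^ (i + 1) * a⌋) ⁻¹' {k | k % 2 = 1} := by
    ext a
    simp
  rw [e]
  have h1 : Measurable fun a : ℝ => ⌊(2 : ℝ) ^ (i + 1) * a⌋ :=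
    Int.measurable_floor.comp (measurable_const.mul measurable_id)
  exact h1 (MeasurableSet.of_discrete)

/-! ### Interleaving -/

variable (p : ℕ → Prop) [DecidablePred p]

/-- the digits of `v` at the places in `p`, those of `u` at the other places -/
def inter (u v : ℕ → Bool) (i : ℕ) : Bool :=
  if p i then v (Nat.count p i) else u (Nat.count (fun j => ¬ p j) i)

theorem inter_nth (hp : {j | p j}.Infinite) (u v : ℕ → Bool) (j : ℕ) :
    inter p u v (Nat.nth p j) = v j := by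
  unfold inter
  rw [if_pos (Nat.nth_mem_of_infinite hp j), Nat.count_nth_of_infinite hp]

theorem inter_nth' (hq : {j | ¬ p j}.Infinite) (u v : ℕ → Bool) (j : ℕ) :
    inter p u v (Nat.nth (fun j => ¬ p j) j) = u j := by
  unfold inter
  have h1 : ¬ p (Nat.nth (fun j => ¬ p j) j) := Nat.nth_mem_of_infinite hq j
  rw [if_neg h1, Nat.count_nth_of_infinite hq]

theorem inter_NE (hq : {j | ¬ p j}.Infinite) {u : ℕ → Bool} (hu : NE u)
    (v : ℕ → Bool) : NE (inter p u v) := by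
  intro n
  obtain ⟨i, hi, hui⟩ := hu n
  refine ⟨Nat.nth (fun j => ¬ p j) i, ?_, ?_⟩
  · have h1 : StrictMono (Nat.nth fun j => ¬ p j) := Nat.nth_strictMono hq
    exact hi.trans (h1.le_apply)
  · rw [inter_nth' p hq]
    exact hui

theorem inter_determines (hq : {j | ¬ p j}.Infinite) {u v u' v' : ℕ → Bool} {n : ℕ}
    (h : S (inter p u v) n = S (inter p u' v') n) :
    S u (Nat.count (fun j => ¬ p j) n) = S u' (Nat.count (fun j => ¬ p j) n) := by
  refine S_congr fun j hj => ?_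
  rw [← inter_nth' p hq u v j, ← inter_nth' p hq u' v' j]
  exact S_inj h _ (Nat.nth_lt_of_lt_count hj)

theorem count_add (n : ℕ) : Nat.count p n + Nat.count (fun j => ¬ p j) n = n := by
  induction n with
  | zero => simp
  | succ n ih =>
    rw [Nat.count_succ, Nat.count_succ]
    by_cases h : p n
    · rw [if_pos h, if_neg (not_not.mpr h)]; omega
    · rw [if_neg h, if_pos h]; omega

/-- the points of `[0,1)` one of whose codes has a given initial segment -/
theorem volume_piece (hq : {j | ¬ p j}.Infinite) (n s : ℕ) :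
    volume {x : ℝ | 0 ≤ x ∧ x < 1 ∧ ∃ v, S (inter p (dig x) v) n = s} ≤
      ENNReal.ofReal (2 ^ (Nat.count p n) / 2 ^ n) := by
  rcases {x : ℝ | 0 ≤ x ∧ x < 1 ∧ ∃ v, S (inter p (dig x) v) n = s}.eq_empty_or_nonempty
    with h | ⟨x0, h0, h1, v0, hv0⟩
  · rw [h, measure_empty]
    exact zero_le
  · let l := Nat.count (fun j => ¬ p j) n
    let c : ℝ := S (dig x0) l
    have hsub : {x : ℝ | 0 ≤ x ∧ x < 1 ∧ ∃ v, S (inter p (dig x) v) n = s} ⊆
        Icc (c / 2 ^ l) ((c + 1) / 2 ^ l) := by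
      rintro x ⟨hx0, hx1, v, hv⟩
      have h2 : S (dig x) l = S (dig x0) l := inter_determines p hq (hv.trans hv0.symm)
      have h3 := S_dig_le hx0 hx1 l
      have h4 := lt_S_dig hx0 hx1 l
      rw [h2] at h3 h4
      have h5 : (0 : ℝ) < 2 ^ l := by positivity
      constructor
      · rw [div_le_iff₀ h5]
        linarith
      · rw [le_div_iff₀ h5]
        linarith
    refine (measure_mono hsub).trans ?_
    rw [Real.volume_Icc]
    apply ENNReal.ofReal_le_ofReal
    have h2 := count_add p n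
    have h3 : (2 : ℝ) ^ n = 2 ^ (Nat.count p n) * 2 ^ l := by
      rw [← pow_add, h2]
    rw [h3, ← sub_div, add_sub_cancel_left, div_mul_eq_div_div, div_self (by positivity)]

/-- the points of `[0,1)` one of whose codes lies in `U` -/
def Pr (U : Set ℝ) : Set ℝ := {x : ℝ | 0 ≤ x ∧ x < 1 ∧ ∃ v, val (inter p (dig x) v) ∈ U}

theorem volume_Pr (hq : {j | ¬ p j}.Infinite) (n : ℕ) {U : Set ℝ}
    (hU : ∀ a ∈ U, ∀ b ∈ U, |a - b| ≤ 1 / 2 ^ n) :
    volume (Pr p U) ≤ ENNReal.ofReal (3 * (2 ^ (Nat.count p n) / 2 ^ n)) := by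
  classical
  rcases (Pr p U).eq_empty_or_nonempty with h | hne
  · rw [h, measure_empty]
    exact zero_le
  · let T : Set ℕ := {s | ∃ x : ℝ, 0 ≤ x ∧ x < 1 ∧ ∃ v, val (inter p (dig x) v) ∈ U ∧
      S (inter p (dig x) v) n = s}
    have hTne : T.Nonempty := by
      obtain ⟨x, h0, h1, v, hv⟩ := hne
      exact ⟨_, x, h0, h1, v, hv, rfl⟩
    let s0 := sInf T
    have hs0 : s0 ∈ T := Nat.sInf_mem hTne
    have hT : ∀ s ∈ T, s = s0 ∨ s = s0 + 1 ∨ s = s0 + 2 := by
      intro s hs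
      have h1 : s0 ≤ s := Nat.sInf_le hs
      obtain ⟨x, _, _, v, hv, hvs⟩ := hs
      obtain ⟨y, _, _, w, hw, hws⟩ := hs0
      have h2 := hU _ hv _ hw
      have h3 := lo_le_val (inter p (dig x) v) n
      have h4 := val_le_hi (inter p (dig y) w) n
      rw [hvs] at h3
      rw [hws] at h4
      have h5 : (0 : ℝ) < 2 ^ n := by positivity
      have h6 : (s : ℝ) / 2 ^ n - ((s0 : ℝ) + 1) / 2 ^ n ≤ 1 / 2 ^ n := by
        have := le_abs_self (val (inter p (dig x) v) - val (inter p (dig y) w))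
        linarith
      rw [← sub_div, div_le_div_iff_of_pos_right h5] at h6
      have h7 : (s : ℝ) ≤ s0 + 2 := by linarith
      have h8 : s ≤ s0 + 2 := by exact_mod_cast h7
      omega
    let Q : ℕ → Set ℝ := fun s => {x : ℝ | 0 ≤ x ∧ x < 1 ∧ ∃ v, S (inter p (dig x) v) n = s}
    have hsub : Pr p U ⊆ Q s0 ∪ (Q (s0 + 1) ∪ Q (s0 + 2)) := by
      rintro x ⟨h0, h1, v, hv⟩
      have h2 : S (inter p (dig x) v) n ∈ T := ⟨x, h0, h1, v, hv, rfl⟩
      rcases hT _ h2 with h | h | h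
      · exact Or.inl ⟨h0, h1, v, h⟩
      · exact Or.inr (Or.inl ⟨h0, h1, v, h⟩)
      · exact Or.inr (Or.inr ⟨h0, h1, v, h⟩)
    have hnn : (0 : ℝ) ≤ 2 ^ (Nat.count p n) / 2 ^ n := by positivity
    calc volume (Pr p U) ≤ volume (Q s0 ∪ (Q (s0 + 1) ∪ Q (s0 + 2))) := measure_mono hsub
      _ ≤ volume (Q s0) + (volume (Q (s0 + 1)) + volume (Q (s0 + 2))) :=
        (measure_union_le _ _).trans (add_le_add le_rfl (measure_union_le _ _))
      _ ≤ ENNReal.ofReal (2 ^ (Nat.count p n) / 2 ^ n) +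
          (ENNReal.ofReal (2 ^ (Nat.count p n) / 2 ^ n) +
            ENNReal.ofReal (2 ^ (Nat.count p n) / 2 ^ n)) :=
        add_le_add (volume_piece p hq n _) (add_le_add (volume_piece p hq n _)
          (volume_piece p hq n _))
      _ = ENNReal.ofReal (3 * (2 ^ (Nat.count p n) / 2 ^ n)) := by
        rw [← ENNReal.ofReal_add hnn hnn, ← ENNReal.ofReal_add hnn (by positivity)]
        congr 1
        ring

end Pool.Agent.H272R3.HM
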