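import Pool.Agent.H272R3.HM.Defs
import Pool.Agent.H272R3.HM.Cdf
import Pool.Agent.H272R3.HM.Code
import Pool.Agent.H272R3.HM.Digits

set_option autoImplicit false

/-!
Universally null sets of positive Hausdorff measure.
-/

namespace Pool.Agent.H272R3.HM

open MeasureTheory Set Filter Topology
open scoped ENNReal Cardinal

variable {f : ℝ → ℝ}

/-! ### The places of the code -/

/-- the gauge is large compared with `2 ^ k * t` on `(0, 2 ^ (-n)]` -/
def Cond (f : ℝ → ℝ) (n k : ℕ) : Prop := ∀ t : ℝ, 0 < t → t ≤ (1 / 2) ^ n → 2 ^ (k + 1) * t ≤ f t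

open Classical in
/-- number of places below `n` -/
noncomputable def kk (f : ℝ → ℝ) : ℕ → ℕ
  | 0 => 0
  | n + 1 => if Even n ∧ Cond f n (kk f n) then kk f n + 1 else kk f n

/-- the places of the code -/
def pp (f : ℝ → ℝ) (n : ℕ) : Prop := Even n ∧ Cond f n (kk f n)

noncomputable instance (f : ℝ → ℝ) : DecidablePred (pp f) := Classical.decPred _

theorem kk_pos {n : ℕ} (h : pp f n) : kk f (n + 1) = kk f n + 1 := if_pos h

theorem kk_neg {n : ℕ} (h : ¬ pp f n) : kk f (n + 1) = kk f n := if_neg h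

theorem count_pp (n : ℕ) : Nat.count (pp f) n = kk f n := by
  induction n with
  | zero => simp [kk]
  | succ n ih =>
    rw [Nat.count_succ, ih]
    by_cases h : pp f n
    · rw [if_pos h, kk_pos h]
    · rw [if_neg h, kk_neg h, add_zero]

theorem exists_near (hlim : Tendsto (fun t => f t / t) (𝓝[>] 0) atTop) (c : ℝ) :
    ∃ δ, 0 < δ ∧ ∀ t, 0 < t → t < δ → c * t ≤ f t := by
  have h1 := hlim.eventually_ge_atTop c
  obtain ⟨δ, hδ, hsub⟩ := mem_nhdsGT_iff_exists_Ioo_subset.mp h1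
  refine ⟨δ, hδ, fun t h0 ht => ?_⟩
  have h2 : c ≤ f t / t := hsub ⟨h0, ht⟩
  rwa [le_div_iff₀ h0] at h2

theorem exists_const (hf : Gauge f) (hlim : Tendsto (fun t => f t / t) (𝓝[>] 0) atTop) :
    ∃ C : ℝ, 1 ≤ C ∧ ∀ t, 0 < t → t ≤ 1 → t ≤ C * f t := by
  obtain ⟨δ, hδ, h⟩ := exists_near hlim 1
  have h2 : 0 < f (δ / 2) := hf.pos _ (by linarith)
  refine ⟨max 1 (1 / f (δ / 2)), le_max_left _ _, fun t h0 h1 => ?_⟩
  have hft := hf.pos t h0
  rcases lt_or_ge t δ with hlt | hge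
  · have h3 := h t h0 hlt
    have h4 : 1 * f t ≤ max 1 (1 / f (δ / 2)) * f t :=
      mul_le_mul_of_nonneg_right (le_max_left _ _) hft.le
    linarith
  · have h3 : f (δ / 2) ≤ f t := hf.mono _ _ (by linarith) (by linarith)
    have h4 : 1 / f (δ / 2) * f t ≤ max 1 (1 / f (δ / 2)) * f t :=
      mul_le_mul_of_nonneg_right (le_max_right _ _) hft.le
    have h5 : 1 ≤ 1 / f (δ / 2) * f t := by
      rw [one_div, ← div_eq_inv_mul, le_div_iff₀ h2]
      linarith
    linarith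

theorem kk_bound {C : ℝ} (hf : Gauge f) (hC1 : 1 ≤ C) (hC : ∀ t, 0 < t → t ≤ 1 → t ≤ C * f t)
    (n : ℕ) : ∀ t : ℝ, 0 < t → t ≤ (1 / 2) ^ n → 2 ^ (kk f n) * t ≤ C * f t := by
  induction n with
  | zero =>
    intro t h0 h1
    simp only [kk, pow_zero, one_mul] at h1 ⊢
    exact hC t h0 h1
  | succ n ih =>
    intro t h0 h1
    have h2 : t ≤ (1 / 2) ^ n := h1.trans (pow_le_pow_of_le_one (by norm_num) (by norm_num)
      (Nat.le_succ n))
    have hft := hf.pos t h0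
    unfold kk
    split_ifs with h
    · have h3 := h.2 t h0 h2
      have h4 : 1 * f t ≤ C * f t := mul_le_mul_of_nonneg_right hC1 hft.le
      linarith
    · exact ih t h0 h2

theorem infinite_pp (hlim : Tendsto (fun t => f t / t) (𝓝[>] 0) atTop) : {j | pp f j}.Infinite := by
  intro hfin
  obtain ⟨N, hN⟩ := hfin.bddAbove
  have h1 : ∀ n, N < n → ¬ pp f n := fun n hn hp => absurd (hN hp) (not_le.mpr hn)
  have h2 : ∀ m, kk f (N + 1 + m) = kk f (N + 1) := by
    intro m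
    induction m with
    | zero => rfl
    | succ m ih =>
      have h3 := h1 (N + 1 + m) (by omega)
      have h4 : kk f (N + 1 + m + 1) = kk f (N + 1 + m) := kk_neg h3
      rw [← ih, ← h4]
      rfl
  obtain ⟨δ, hδ, h⟩ := exists_near hlim (2 ^ (kk f (N + 1) + 1))
  obtain ⟨m, hm⟩ := exists_pow_lt_of_lt_one hδ (by norm_num : (1 / 2 : ℝ) < 1)
  have h3 : ∃ n, N < n ∧ m ≤ n ∧ Even n := ⟨2 * (N + 1 + m), by omega, by omega, even_two_mul _⟩
  obtain ⟨n, hn1, hn2, hn3⟩ := h3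
  refine h1 n hn1 ⟨hn3, ?_⟩
  have h4 : kk f n = kk f (N + 1) := by
    have := h2 (n - (N + 1))
    rwa [show N + 1 + (n - (N + 1)) = n by omega] at this
  rw [h4]
  intro t h0 ht
  refine h t h0 (lt_of_le_of_lt (ht.trans ?_) hm)
  exact pow_le_pow_of_le_one (by norm_num) (by norm_num) hn2

theorem infinite_not_pp : {j | ¬ pp f j}.Infinite := by
  refine infinite_of_injective_forall_mem (f := fun n : ℕ => 2 * n + 1) (fun a b h => by
    simpa using h) fun n h => ?_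
  have h1 := h.1
  rw [Nat.even_add_one] at h1
  exact h1 (even_two_mul n)

/-! ### The lower bound -/

theorem volume_Pr_le {C : ℝ} (hf : Gauge f) (hC1 : 1 ≤ C)
    (hC : ∀ t, 0 < t → t ≤ 1 → t ≤ C * f t) {t : ℝ} (h0 : 0 < t) (h1 : t ≤ 1) {U : Set ℝ}
    (hU : ∀ a ∈ U, ∀ b ∈ U, |a - b| ≤ t) :
    volume (Pr (pp f) U) ≤ ENNReal.ofReal (6 * C * f t) := by
  obtain ⟨n, hn1, hn2⟩ := exists_nat_pow_near_of_lt_one h0 h1 (by norm_num : (0 : ℝ) < 1 / 2)
    (by norm_num)
  refine (volume_Pr (pp f) infinite_not_pp n (U := U) fun a ha b hb => ?_).trans ?_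
  · refine (hU a ha b hb).trans (hn2.trans (le_of_eq ?_))
    rw [one_div_pow]
  · apply ENNReal.ofReal_le_ofReal
    have h2 := kk_bound hf hC1 hC n t h0 hn2
    rw [count_pp]
    have h3 : (2 : ℝ) ^ kk f n / 2 ^ n = 2 * (2 ^ kk f n * (1 / 2) ^ (n + 1)) := by
      rw [one_div_pow, pow_succ]
      field_simp
    have h4 : (2 : ℝ) ^ kk f n * (1 / 2) ^ (n + 1) ≤ 2 ^ kk f n * t :=
      mul_le_mul_of_nonneg_left hn1.le (by positivity)
    rw [h3]
    linarith

theorem volume_Pr_diam {C : ℝ} (hf : Gauge f) (hC1 : 1 ≤ C)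
    (hC : ∀ t, 0 < t → t ≤ 1 → t ≤ C * f t) {U : Set ℝ} (hb : Bornology.IsBounded U)
    (hd : Metric.diam U ≤ 1) :
    volume (Pr (pp f) U) ≤ ENNReal.ofReal (6 * C * f (Metric.diam U)) := by
  have hU : ∀ a ∈ U, ∀ b ∈ U, |a - b| ≤ Metric.diam U := fun a ha b hb' => by
    rw [← Real.dist_eq]
    exact Metric.dist_le_diam_of_mem hb ha hb'
  rcases Metric.diam_nonneg.lt_or_eq (a := 0) (b := Metric.diam U) with h | h
  · exact volume_Pr_le hf hC1 hC h hd hU
  · have h1 : Tendsto (fun t => ENNReal.ofReal (6 * C * f t)) (𝓝[>] 0)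
        (𝓝 (ENNReal.ofReal (6 * C * f 0))) := by
      have h2 : Tendsto f (𝓝[>] 0) (𝓝 (f 0)) :=
        (hf.rcont 0 le_rfl).tendsto.mono_left (nhdsWithin_mono _ Ioi_subset_Ici_self)
      exact (ENNReal.continuous_ofReal.tendsto _).comp (h2.const_mul _)
    rw [← h]
    refine ge_of_tendsto h1 ?_
    filter_upwards [Ioo_mem_nhdsGT (one_pos : (0 : ℝ) < 1)] with t ht
    refine volume_Pr_le hf hC1 hC ht.1 ht.2.le fun a ha b hb' => (hU a ha b hb').trans ?_
    rw [← h]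
    exact ht.1.le

theorem H_pos (hf : Gauge f) (hlim : Tendsto (fun t => f t / t) (𝓝[>] 0) atTop) {X A : Set ℝ}
    (hXI : X ⊆ Ico 0 1) (hX : volume X ≠ 0)
    (hA : ∀ x ∈ X, ∃ v, val (inter (pp f) (dig x) v) ∈ A) : 0 < H f A := by
  obtain ⟨C, hC1, hC⟩ := exists_const hf hlim
  have key : volume X / ENNReal.ofReal (6 * C) ≤ Hd f 1 A := by
    refine le_iInf fun U => le_iInf fun hU => le_iInf fun hd => ?_
    have hsub : X ⊆ ⋃ i, Pr (pp f) (U i) := by
      intro x hx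
      obtain ⟨v, hv⟩ := hA x hx
      obtain ⟨i, hi⟩ := mem_iUnion.mp (hU hv)
      exact mem_iUnion.mpr ⟨i, (hXI hx).1, (hXI hx).2, v, hi⟩
    refine ENNReal.div_le_of_le_mul' ?_
    calc volume X ≤ volume (⋃ i, Pr (pp f) (U i)) := measure_mono hsub
      _ ≤ ∑' i, volume (Pr (pp f) (U i)) := measure_iUnion_le _
      _ ≤ ∑' i, ENNReal.ofReal (6 * C * f (Metric.diam (U i))) :=
        ENNReal.tsum_le_tsum fun i => volume_Pr_diam hf hC1 hC (hd i).1 (hd i).2
      _ = ∑' i, ENNReal.ofReal (6 * C) * ENNReal.ofReal (f (Metric.diam (U i))) := by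
        congr 1
        funext i
        rw [ENNReal.ofReal_mul (by linarith)]
      _ = ENNReal.ofReal (6 * C) * ∑' i, ENNReal.ofReal (f (Metric.diam (U i))) :=
        ENNReal.tsum_mul_left
  have h1 : Hd f 1 A ≤ H f A := le_iSup₂_of_le (f := fun (δ : ℝ) (_ : 0 < δ) => Hd f δ A) 1
    one_pos le_rfl
  refine lt_of_lt_of_le ?_ (key.trans h1)
  exact ENNReal.div_pos hX ENNReal.ofReal_ne_top

/-! ### The universally null set -/

theorem exists_min : ∃ X : Set ℝ, X ⊆ Ico 0 1 ∧ volume X ≠ 0 ∧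
    ∀ B : Set ℝ, #B < #X → volume B = 0 := by
  let K : Set Cardinal := {c | ∃ X : Set ℝ, #X = c ∧ volume X ≠ 0}
  have hK : K.Nonempty := ⟨_, univ, rfl, by simp⟩
  obtain ⟨X0, hX0, hv0⟩ := csInf_mem hK
  have hmin : ∀ B : Set ℝ, #B < sInf K → volume B = 0 := by
    intro B hB
    by_contra hne
    exact absurd (csInf_le' (show #B ∈ K from ⟨B, rfl, hne⟩)) (not_le.mpr hB)
  have hex : ∃ z : ℤ, volume (X0 ∩ Ico (z : ℝ) (z + 1)) ≠ 0 := by
    by_contra hne
    push Not at hne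
    apply hv0
    refine measure_mono_null ?_ (measure_iUnion_null hne)
    intro x hx
    exact mem_iUnion.mpr ⟨⌊x⌋, hx, Int.floor_le x, Int.lt_floor_add_one x⟩
  obtain ⟨z, hz⟩ := hex
  refine ⟨(fun x : ℝ => x + z) ⁻¹' (X0 ∩ Ico (z : ℝ) (z + 1)), ?_, ?_, ?_⟩
  · rintro x ⟨_, h1, h2⟩
    beta_reduce at h1 h2
    constructor <;> linarith
  · rw [measure_preimage_add_right]
    exact hz
  · intro B hB
    apply hmin
    refine lt_of_lt_of_le hB ?_
    refine (Cardinal.mk_preimage_of_injective _ _ (add_left_injective _)).trans ?_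
    rw [← hX0]
    exact Cardinal.mk_le_mk_of_subset inter_subset_left

theorem exists_univNull (p : ℕ → Prop) [DecidablePred p] (hp : {j | p j}.Infinite)
    (hq : {j | ¬ p j}.Infinite) : ∃ X A : Set ℝ, X ⊆ Ico 0 1 ∧ volume X ≠ 0 ∧
      (∀ x ∈ X, ∃ v, val (inter p (dig x) v) ∈ A) ∧ UnivNull A := by
  obtain ⟨X, hXI, hX, hmin⟩ := exists_min
  obtain ⟨r, wo, hr⟩ := Cardinal.exists_ord_eq X
  have hcard : ∀ x : X, #{y : X | r y x} < #X := by
    intro x
    have h1 := Cardinal.card_typein_lt x hr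
    rw [Ordinal.card_typein] at h1
    exact h1
  have hseg : ∀ x : X, volume (Subtype.val '' {y : X | r y x}) = 0 := fun x =>
    hmin _ (lt_of_le_of_lt Cardinal.mk_image_le (hcard x))
  choose v hv using fun x : X => exists_code (hseg x)
  let a : X → ℝ := fun x => val (inter p (dig x) (v x))
  have hNE : ∀ x : X, NE (inter p (dig x) (v x)) := fun x =>
    inter_NE p hq (NE_dig (hXI x.2).1 (hXI x.2).2) _
  let dec : ℝ → (ℕ → Bool) := fun t j => dig t (Nat.nth p j)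
  have hdec : ∀ x : X, dec (a x) = v x := by
    intro x
    funext j
    change dig (val (inter p (dig x) (v x))) (Nat.nth p j) = v x j
    rw [dig_val (hNE x), inter_nth p hp]
  have hdecm : Measurable dec := measurable_pi_iff.mpr fun j => measurable_dig _
  refine ⟨X, range a, hXI, hX, fun x hx => ⟨v ⟨x, hx⟩, ⟨x, hx⟩, rfl⟩, ?_⟩
  intro μ hμ h0
  by_contra hA
  have small : ∀ B : Set ℝ, #B < #X → μ B = 0 := fun B hB =>
    null_of_image h0 (hmin _ (lt_of_le_of_lt Cardinal.mk_image_le hB))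
  let E : Set (ℝ × ℝ) := {q | q.2 ∈ Nl (dec q.1)}
  have hE : MeasurableSet E :=
    ((hdecm.comp measurable_fst).prodMk measurable_snd) measurableSet_code
  have hE0 : (μ.prod volume) E = 0 := by
    rw [Measure.measure_prod_null hE]
    exact Filter.Eventually.of_forall fun t => volume_Nl (dec t)
  have hE1 : ((volume : Measure ℝ).prod μ) (Prod.swap ⁻¹' E) = 0 := by
    rw [← Measure.prod_swap (μ := volume) (ν := μ), Measure.map_apply measurable_swap hE] at hE0
    exact hE0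
  have hae := (Measure.measure_prod_null (measurable_swap hE)).mp hE1
  have hXsub : X ⊆ {x | ¬ μ (Prod.mk x ⁻¹' (Prod.swap ⁻¹' E)) = 0} := by
    intro x hx hμx
    have h1 : a '' {y | r ⟨x, hx⟩ y} ⊆ Prod.mk x ⁻¹' (Prod.swap ⁻¹' E) := by
      rintro _ ⟨y, hy, rfl⟩
      change x ∈ Nl (dec (a y))
      rw [hdec]
      exact hv y ⟨⟨x, hx⟩, hy, rfl⟩
    have h2 : μ (a '' {y | r ⟨x, hx⟩ y}) = 0 := measure_mono_null h1 hμx
    have h3 : μ (a '' {y | r y ⟨x, hx⟩}) = 0 :=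
      small _ (lt_of_le_of_lt Cardinal.mk_image_le (hcard ⟨x, hx⟩))
    have h4 : range a ⊆ (a '' {y | r ⟨x, hx⟩ y}) ∪ (a '' {y | r y ⟨x, hx⟩}) ∪ {a ⟨x, hx⟩} := by
      rintro _ ⟨y, rfl⟩
      rcases trichotomous_of r ⟨x, hx⟩ y with h | h | h
      · exact Or.inl (Or.inl ⟨y, h, rfl⟩)
      · exact Or.inr (by rw [← h]; rfl)
      · exact Or.inl (Or.inr ⟨y, h, rfl⟩)
    exact hA (measure_mono_null h4 (measure_union_null (measure_union_null h2 h3) (h0 _)))
  exact hX (measure_mono_null hXsub (ae_iff.mp hae))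

/-- a universally null set of positive measure -/
theorem exists_bad (hf : Gauge f) (hlim : Tendsto (fun t => f t / t) (𝓝[>] 0) atTop) :
    ∃ A : Set ℝ, UnivNull A ∧ H f A = ∞ := by
  obtain ⟨X, A, hXI, hX, hA, hN⟩ := exists_univNull (pp f) (infinite_pp hlim) infinite_not_pp
  refine ⟨A, hN, ?_⟩
  rcases zero_or_top hf hN (le_refl A) with h | h
  · exact absurd h (H_pos hf hlim hXI hX hA).ne'
  · exact h

end Pool.Agent.H272R3.HM
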